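import Mathlib

/-!
# C3: the double commutant theorem for a finite family of semisimple modules
-/

set_option autoImplicit false

namespace Pool.Agent.Helper71.C3

open Finset

theorem double_comm {A : Type} [Ring A] {ι : Type} [Fintype ι] [DecidableEq ι] {M : ι → Type}
    [∀ i, AddCommGroup (M i)] [∀ i, Module A (M i)] [∀ i, IsSemisimpleModule A (M i)]
    [∀ i, DecidableEq (M i)] (f : ∀ i, M i →+ M i)
    (hf : ∀ i j (T : M i →ₗ[A] M j) (v : M i), T (f i v) = f j (T v)) (s : ∀ i, Finset (M i)) :
    ∃ r : A, ∀ i, ∀ v ∈ s i, f i v = r • v := by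
  classical
  let F : Module.End (Module.End A (Π i, M i)) (Π i, M i) :=
    { toFun := fun v i => f i (v i)
      map_add' := fun v w => by
        funext i
        exact (f i).map_add _ _
      map_smul' := fun T v => by
        funext j
        have h1 : T v = ∑ i, T (Pi.single i (v i)) := by
          conv_lhs => rw [← Finset.univ_sum_single v]
          rw [map_sum]
        have h2 : T (fun i => f i (v i)) = ∑ i, T (Pi.single i (f i (v i))) := by
          conv_lhs => rw [← Finset.univ_sum_single (fun i => f i (v i))]
          rw [map_sum]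
        change f j ((T v) j) = (T (fun i => f i (v i))) j
        rw [h1, h2, Finset.sum_apply, Finset.sum_apply, map_sum]
        refine Finset.sum_congr rfl fun i _ => ?_
        have h3 := hf i j ((LinearMap.proj j).comp (T.comp (LinearMap.single A M i))) (v i)
        exact h3.symm }
  obtain ⟨r, hr⟩ := jacobson_density F
    (univ.biUnion fun i => (s i).image fun v => (Pi.single i v : Π i, M i))
  refine ⟨r, fun i v hv => ?_⟩
  have h1 := hr (Pi.single i v) (Finset.mem_biUnion.2 ⟨i, mem_univ i, Finset.mem_image_of_mem _ hv⟩)
  have h2 := congrFun h1 i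
  change f i ((Pi.single i v : Π i, M i) i) = r • ((Pi.single i v : Π i, M i) i) at h2
  rwa [Pi.single_eq_same] at h2

end Pool.Agent.Helper71.C3
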