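import Pool.Agent.Helper71.C3.Defs

/-!
# Polarised and semisimple systems
-/

set_option autoImplicit false

namespace Pool.Agent.Helper71.C3

open Polynomial Pool.Agent.Helper48.SP Pool.Agent.Helper48.GC8 Pool.Agent.Helper35.GT

variable {B : Type} [Fintype B] [DecidableEq B] {k : B → Blk}

/-- `g` is the value at `z` of a conjugate of a Hodge cocharacter in `S`. -/
def IsHodgeElt (Γ : Set (Matrix (Ind k) (Ind k) ℂ)) (S : Finset (Ind k → ℕ)) (z : ℂ)
    (g : Matrix (Ind k) (Ind k) ℂ) : Prop :=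
  ∃ s ∈ S, ∃ h h' : Matrix (Ind k) (Ind k) ℂ, InClosure Γ h ∧ h' * h = 1 ∧
    g = h * Matrix.diagonal (fun l => z ^ s l) * h'

/-- The tensor `E` in `⊕ V_b ⊗ V_b` is nondegenerate and a Tate and Hodge class: `g E gᵀ = c ^ wt E` for the
Frobenii `(c, g)` and the values `g` at `c` of the conjugates of the Hodge cocharacters (the
class of a polarisation). -/
structure IsPolarization (𝓕 : Set (Frob k)) (Γ : Set (Matrix (Ind k) (Ind k) ℂ))
    (S : Finset (Ind k → ℕ)) (E : Matrix (Ind k) (Ind k) ℂ) : Prop where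
  nondeg : ∃ E', E * E' = 1
  blocks : ∀ l r : Ind k, l.1 ≠ r.1 → E l r = 0
  tate : ∀ z ∈ 𝓕, ∀ l r, (z.2 * E * z.2.transpose) l r = (z.1 : ℂ) ^ (k l.1).wt * E l r
  hodge : ∀ c : ℂ, c ≠ 0 → ∀ g, IsHodgeElt Γ S c g →
    ∀ l r, (g * E * g.transpose) l r = c ^ (k l.1).wt * E l r

/-- A reductive system: the tensor powers of `V` are semisimple representations (Faltings for abelian
varieties), `S` is stable under the complex conjugation, `Γ` is in the Zariski closure of the group generated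
by the conjugates of the Hodge cocharacters (it is the Mumford-Tate group), and there is a polarisation. -/
structure IsReductive (𝓕 : Set (Frob k)) (Γ : Set (Matrix (Ind k) (Ind k) ℂ))
    (S : Finset (Ind k → ℕ)) : Prop where
  semisimple : ∀ (m : ℕ) (U : Submodule ℂ ((Fin m → Ind k) → ℂ)),
    (∀ z ∈ 𝓕, ∀ u ∈ U, tensorPower z.2 u ∈ U) →
      ∃ U' : Submodule ℂ ((Fin m → Ind k) → ℂ), (∀ z ∈ 𝓕, ∀ u ∈ U', tensorPower z.2 u ∈ U') ∧
        IsCompl U U'
  symm : ∀ s ∈ S, (fun l => (k l.1).wt - s l) ∈ S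
  generated : ∀ g ∈ Γ, InClosure {g | ∃ c : ℂ, c ≠ 0 ∧ IsHodgeElt Γ S c g} g
  polarized : ∃ E, IsPolarization 𝓕 Γ S E

end Pool.Agent.Helper71.C3
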