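import Pool.Agent.Helper71.C3.Words
import Pool.Agent.Helper71.C3.DefsR

/-!
# C3: maps which commute with the Frobenii commute with the Hodge cocharacters
-/

set_option autoImplicit false

namespace Pool.Agent.Helper71.C3

open Polynomial Pool.Agent.Helper48.SP Pool.Agent.Helper48.GC8 Pool.Agent.Helper35.GT Finset

variable {B : Type} [Fintype B] [DecidableEq B] {k : B → Blk}

/-- Elements of Hodge coniveau `i` in degree `2 i` are multiplied by `z ^ i`. -/
theorem hodge_fix {Γ : Set (Matrix (Ind k) (Ind k) ℂ)} {S : Finset (Ind k → ℕ)}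
    (hk : ∀ b, IsSym (k b)) (ht : ∀ s ∈ S, ∀ b, ∃ σ : Equiv.Perm (Fin (k b).dim), ∀ j, s ⟨b, j⟩ = (k b).slope (σ j))
    (hsymm : ∀ s ∈ S, (fun l => (k l.1).wt - s l) ∈ S) {n i : ℕ} {u : (Fin n → Ind k) → ℂ}
    (hu : u ∈ hodgeConiveau Γ S n (i + i) i) {z : ℂ} {g : Matrix (Ind k) (Ind k) ℂ}
    (hg : IsHodgeElt Γ S z g) : tensorPower g u = z ^ i • u := by
  classical
  obtain ⟨s, hs, h, h', hh, hh', rfl⟩ := hg
  set G := h * Matrix.diagonal (fun l => z ^ s l) * h' with hG
  let E : Submodule ℂ ((Fin n → Ind k) → ℂ) := Module.End.eigenspace (rho (univ : Finset (Fin n)) G) (z ^ i)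
  have hle : hodgeConiveau Γ S n (i + i) i ≤ E := by
    refine sSup_le fun U hU u hu => ?_
    have hU' : IsHodge Γ S n (i + i) i U := hU
    rw [Module.End.mem_eigenspace_iff]
    have hrho : (rho univ h' * rho univ h : Module.End ℂ (Ten (Fin n) (Ind k))) = 1 := by
      rw [← rho_mul, hh', rho_one]
    have hrho' : (rho univ h * rho univ h' : Module.End ℂ (Ten (Fin n) (Ind k))) = 1 := by
      rw [← rho_mul, mul_eq_one_comm.1 hh', rho_one]
    have hv : rho univ h' u ∈ U :=
      stab_inv (f := rho univ h) (fun w hw => stab hU'.stable hh hw) hrho hu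
    set v := rho univ h' u with hvdef
    have hdiag : rho univ (Matrix.diagonal (fun l => z ^ s l)) v = z ^ i • v := by
      funext y
      rw [rho_diag, Pi.smul_apply, smul_eq_mul]
      by_cases hy : v y = 0
      · rw [hy, mul_zero, mul_zero]
      · congr 1
        have h1 := hU'.hodge s hs v hv y hy
        have h2 := hU'.hodge _ (hsymm s hs) v hv y hy
        have h3 := hU'.degree v hv y hy
        have h4 : ∀ p, s (y p) ≤ (k (y p).1).wt := by
          intro p
          obtain ⟨σ, hσ⟩ := ht s hs (y p).1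
          have h5 : s (y p) = (k (y p).1).slope (σ (y p).2) := hσ (y p).2
          have h6 := (hk (y p).1).dual (σ (y p).2)
          omega
        have h7 : ∑ p, ((k (y p).1).wt - s (y p)) + ∑ p, s (y p) = i + i := by
          rw [← Finset.sum_add_distrib, ← h3]
          exact Finset.sum_congr rfl fun p _ => Nat.sub_add_cancel (h4 p)
        have h8 : ∑ p, s (y p) = i := by omega
        rw [Finset.prod_pow_eq_pow_sum, h8]
    rw [hG, rho_mul, rho_mul, Module.End.mul_apply, Module.End.mul_apply, ← hvdef, hdiag, map_smul,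
      ← Module.End.mul_apply, hrho', Module.End.one_apply]
  have h1 := hle hu
  rw [Module.End.mem_eigenspace_iff] at h1
  rw [tensorPower_eq]
  exact h1

/-- The part of a matrix on words with rows of degree `i'` and columns of degree `i`. -/
def part {m' m : ℕ} (i' i : ℕ) (T : Matrix (Fin m' → Ind k) (Fin m → Ind k) ℂ) :
    Matrix (Fin m' → Ind k) (Fin m → Ind k) ℂ :=
  Matrix.of fun x y => if dg x = i' ∧ dg y = i then T x y else 0

lemma part_apply {m' m : ℕ} (i' i : ℕ) (T : Matrix (Fin m' → Ind k) (Fin m → Ind k) ℂ)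
    (x : Fin m' → Ind k) (y : Fin m → Ind k) :
    part i' i T x y = if dg x = i' ∧ dg y = i then T x y else 0 := rfl

lemma part_comm {m' m : ℕ} (i' i : ℕ) {T : Matrix (Fin m' → Ind k) (Fin m → Ind k) ℂ}
    {g : Matrix (Ind k) (Ind k) ℂ} (hg : ∀ l r : Ind k, l.1 ≠ r.1 → g l r = 0)
    (h : R m' g * T = T * R m g) : R m' g * part i' i T = part i' i T * R m g := by
  ext x y
  have h1 : (R m' g * part i' i T) x y = if dg x = i' ∧ dg y = i then (R m' g * T) x y else 0 := by
    rw [Matrix.mul_apply, Matrix.mul_apply]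
    split_ifs with hc
    · refine Finset.sum_congr rfl fun x' _ => ?_
      by_cases h0 : R m' g x x' = 0
      · rw [h0, zero_mul, zero_mul]
      · rw [part_apply, if_pos ⟨by rw [← dg_of_R hg h0]; exact hc.1, hc.2⟩]
    · refine Finset.sum_eq_zero fun x' _ => ?_
      by_cases h0 : R m' g x x' = 0
      · rw [h0, zero_mul]
      · rw [part_apply, if_neg, mul_zero]
        rintro ⟨h2, h3⟩
        exact hc ⟨by rw [dg_of_R hg h0]; exact h2, h3⟩
  have h2 : (part i' i T * R m g) x y = if dg x = i' ∧ dg y = i then (T * R m g) x y else 0 := by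
    rw [Matrix.mul_apply, Matrix.mul_apply]
    split_ifs with hc
    · refine Finset.sum_congr rfl fun y' _ => ?_
      by_cases h0 : R m g y' y = 0
      · rw [h0, mul_zero, mul_zero]
      · rw [part_apply, if_pos ⟨hc.1, by rw [dg_of_R hg h0]; exact hc.2⟩]
    · refine Finset.sum_eq_zero fun y' _ => ?_
      by_cases h0 : R m g y' y = 0
      · rw [h0, mul_zero]
      · rw [part_apply, if_neg, zero_mul]
        rintro ⟨h3, h4⟩
        exact hc ⟨h3, by rw [← dg_of_R hg h0]; exact h4⟩
  rw [h1, h2, h]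

lemma sum_part {m' m : ℕ} (T : Matrix (Fin m' → Ind k) (Fin m → Ind k) ℂ) :
    T = ∑ i' ∈ (univ : Finset (Fin m' → Ind k)).image dg,
      ∑ i ∈ (univ : Finset (Fin m → Ind k)).image dg, part i' i T := by
  ext x y
  rw [Matrix.sum_apply, Finset.sum_eq_single (dg x)]
  · rw [Matrix.sum_apply, Finset.sum_eq_single (dg y)]
    · rw [part_apply, if_pos ⟨rfl, rfl⟩]
    · intro i _ hi
      rw [part_apply, if_neg fun h => hi h.2.symm]
    · intro h
      exact absurd (Finset.mem_image_of_mem _ (mem_univ y)) h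
  · intro i' _ hi'
    rw [Matrix.sum_apply]
    exact Finset.sum_eq_zero fun i _ => by rw [part_apply, if_neg fun h => hi' h.1.symm]
  · intro h
    exact absurd (Finset.mem_image_of_mem _ (mem_univ x)) h

/-- A homogeneous map which commutes with the Frobenii commutes with the Hodge cocharacters. -/
theorem comm_part (hk : ∀ b, IsSym (k b)) {f₀ : ℕ} {𝓕 : Set (Frob k)}
    {Γ : Set (Matrix (Ind k) (Ind k) ℂ)} {S : Finset (Ind k → ℕ)} (hS : IsHodgeSystem f₀ 𝓕 Γ S)
    (hR : IsReductive 𝓕 Γ S) (hne : 𝓕.Nonempty)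
    (hle : ∀ m i, galoisConiveau 𝓕 m (i + i) i ≤ hodgeConiveau Γ S m (i + i) i)
    {m' m i' i : ℕ} {T : Matrix (Fin m' → Ind k) (Fin m → Ind k) ℂ}
    (hT : ∀ z ∈ 𝓕, R m' z.2 * part i' i T = part i' i T * R m z.2) {c : ℂ} (hc : c ≠ 0)
    {g : Matrix (Ind k) (Ind k) ℂ} (hg : IsHodgeElt Γ S c g) :
    R m' g * part i' i T = part i' i T * R m g := by
  classical
  obtain ⟨E, ⟨E', hE'⟩, hEb, hEt, hEh⟩ := hR.polarized
  set T' := part i' i T with hT'
  set P := T' * R m E with hP
  have hTd : ∀ x y, T' x y ≠ 0 → dg x = i' ∧ dg y = i := by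
    intro x y hxy
    rw [hT', part_apply] at hxy
    by_contra hcon
    exact hxy (if_neg hcon)
  have hPd : ∀ x y, P x y ≠ 0 → dg x = i' ∧ dg y = i := by
    intro x y hxy
    rw [hP, Matrix.mul_apply] at hxy
    obtain ⟨x', -, hx'⟩ := Finset.exists_ne_zero_of_sum_ne_zero hxy
    obtain ⟨h1, h2⟩ := hTd _ _ (left_ne_zero_of_mul hx')
    exact ⟨h1, by rw [← dg_of_R hEb (right_ne_zero_of_mul hx')]; exact h2⟩
  -- multiplication of the form part
  have hform : ∀ (a : Matrix (Ind k) (Ind k) ℂ) (b : ℂ),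
      (∀ l r, (a * E * a.transpose) l r = b ^ (k l.1).wt * E l r) →
      T' * (R m a * R m E * (R m a).transpose) = b ^ i • P := by
    intro a b hab
    ext x y
    rw [Matrix.smul_apply, smul_eq_mul, hP, Matrix.mul_apply, Matrix.mul_apply, Finset.mul_sum]
    refine Finset.sum_congr rfl fun x' _ => ?_
    rw [R_form m hab]
    by_cases h0 : T' x x' = 0
    · rw [h0, zero_mul, zero_mul, mul_zero]
    · rw [(hTd _ _ h0).2]
      ring
  have heig : ∀ z ∈ 𝓕, tensorPower z.2 (ten P) = ((z.1 : ℂ) ^ i) • ten P := by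
    intro z hz
    rw [tensorPower_ten, ← ten_smul]
    congr 1
    rw [← hform z.2 z.1 (hEt z hz), hP]
    calc R m' z.2 * (T' * R m E) * (R m z.2).transpose
        = R m' z.2 * T' * R m E * (R m z.2).transpose := by simp only [Matrix.mul_assoc]
      _ = T' * R m z.2 * R m E * (R m z.2).transpose := by rw [hT z hz]
      _ = T' * (R m z.2 * R m E * (R m z.2).transpose) := by simp only [Matrix.mul_assoc]
  have hdeg : ∀ w, ten P w ≠ 0 → dg w = i' + i := by
    intro w hw
    obtain ⟨h1, h2⟩ := hPd _ _ hw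
    rw [dg_append, h1, h2]
  have hinvE : R m E * R m E' = 1 := by rw [← R_mul, hE', R_one]
  by_cases h0 : ten P = 0
  · have h1 : P = 0 := ten_inj (by rw [h0]; rfl)
    have h2 : T' = 0 := by
      calc T' = T' * (R m E * R m E') := by rw [hinvE, Matrix.mul_one]
        _ = P * R m E' := by rw [hP, Matrix.mul_assoc]
        _ = 0 := by rw [h1, Matrix.zero_mul]
    rw [h2, Matrix.mul_zero, Matrix.zero_mul]
  · -- `i' = i`
    have hii : i' = i := by
      obtain ⟨z, hz⟩ := hne
      have h1 := norm_eig hS.toIsSystem hz hdeg h0 (heig z hz)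
      obtain ⟨p, f, hp, hf1, hf2, hzp⟩ := hS.bounded z hz
      have hz1 : 1 < z.1 := by
        rw [hzp]
        exact Nat.one_lt_pow (by omega) hp.one_lt
      rw [norm_pow, Complex.norm_natCast, ← pow_mul] at h1
      have h2 : z.1 ^ (i * 2) = z.1 ^ (i' + i) := by exact_mod_cast h1
      have h3 := Nat.pow_right_injective hz1 h2
      omega
    subst hii
    have hU : IsEffective 𝓕 (m' + m) (i' + i') i' (Submodule.span ℂ {ten P}) := by
      refine ⟨?_, ?_, ?_⟩
      · intro u hu y hy
        obtain ⟨a, rfl⟩ := Submodule.mem_span_singleton.1 hu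
        exact hdeg y (right_ne_zero_of_mul hy)
      · intro z hz u hu
        obtain ⟨a, rfl⟩ := Submodule.mem_span_singleton.1 hu
        rw [tensorPower_eq, map_smul, ← tensorPower_eq, heig z hz]
        exact Submodule.smul_mem _ _ (Submodule.smul_mem _ _ (Submodule.mem_span_singleton_self _))
      · intro z hz u hu hu0 β hβ
        obtain ⟨a, rfl⟩ := Submodule.mem_span_singleton.1 hu
        rw [tensorPower_eq, map_smul, ← tensorPower_eq, heig z hz, smul_comm] at hβ
        have h1 : (z.1 : ℂ) ^ i' = β := smul_left_injective ℂ hu0 hβ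
        have hz0 : (z.1 : ℂ) ^ i' ≠ 0 := by
          obtain ⟨p, f, hp, hf1, hf2, hzp⟩ := hS.bounded z hz
          rw [hzp]
          exact pow_ne_zero _ (Nat.cast_ne_zero.2 (pow_ne_zero _ hp.ne_zero))
        rw [← h1, div_self hz0, Nat.add_sub_cancel, div_self hz0]
        exact ⟨isIntegral_one, isIntegral_one⟩
    have hmem : ten P ∈ galoisConiveau 𝓕 (m' + m) (i' + i') i' :=
      (le_sSup (show Submodule.span ℂ {ten P} ∈ {U | IsEffective 𝓕 _ _ _ U} from hU) :
        Submodule.span ℂ {ten P} ≤ galoisConiveau 𝓕 _ _ _) (Submodule.mem_span_singleton_self _)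
    have h1 := hodge_fix hk hS.types hR.symm (hle _ _ hmem) hg
    rw [tensorPower_ten, ← ten_smul] at h1
    have h2 := ten_inj h1
    rw [← hform g c (hEh c hc g hg), hP] at h2
    obtain ⟨s, hs, h, h', hh, hh', rfl⟩ := hg
    set G := h * Matrix.diagonal (fun l => c ^ s l) * h' with hG
    have hinvG : ∃ G', G * G' = 1 := by
      refine ⟨h * Matrix.diagonal (fun l => (c ^ s l)⁻¹) * h', ?_⟩
      have h3 : h * h' = 1 := mul_eq_one_comm.1 hh'
      have h4 : Matrix.diagonal (fun l => c ^ s l) * Matrix.diagonal (fun l => (c ^ s l)⁻¹) =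
          (1 : Matrix (Ind k) (Ind k) ℂ) := by
        rw [Matrix.diagonal_mul_diagonal, ← Matrix.diagonal_one]
        congr 1
        funext l
        exact mul_inv_cancel₀ (pow_ne_zero _ hc)
      calc h * Matrix.diagonal (fun l => c ^ s l) * h' * (h * Matrix.diagonal (fun l => (c ^ s l)⁻¹) * h')
          = h * Matrix.diagonal (fun l => c ^ s l) * (h' * h) *
              Matrix.diagonal (fun l => (c ^ s l)⁻¹) * h' := by simp only [Matrix.mul_assoc]
        _ = h * (Matrix.diagonal (fun l => c ^ s l) * Matrix.diagonal (fun l => (c ^ s l)⁻¹)) * h' := by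
            rw [hh', Matrix.mul_one, Matrix.mul_assoc h]
        _ = 1 := by rw [h4, Matrix.mul_one, h3]
    obtain ⟨G', hG'⟩ := hinvG
    have hG'' : (R m G).transpose * (R m G').transpose = 1 := by
      rw [← Matrix.transpose_mul, ← R_mul, mul_eq_one_comm.1 hG', R_one, Matrix.transpose_one]
    have h5 : R m' G * T' * (R m E * (R m G).transpose) = T' * R m G * (R m E * (R m G).transpose) := by
      calc R m' G * T' * (R m E * (R m G).transpose) = R m' G * (T' * R m E) * (R m G).transpose := by
            simp only [Matrix.mul_assoc]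
        _ = T' * (R m G * R m E * (R m G).transpose) := h2
        _ = T' * R m G * (R m E * (R m G).transpose) := by simp only [Matrix.mul_assoc]
    have h6 : R m E * (R m G).transpose * ((R m G').transpose * R m E') = 1 := by
      calc R m E * (R m G).transpose * ((R m G').transpose * R m E')
          = R m E * ((R m G).transpose * (R m G').transpose) * R m E' := by
            simp only [Matrix.mul_assoc]
        _ = 1 := by rw [hG'', Matrix.mul_one, hinvE]
    calc R m' G * T' = R m' G * T' * (R m E * (R m G).transpose * ((R m G').transpose * R m E')) := by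
          rw [h6, Matrix.mul_one]
      _ = R m' G * T' * (R m E * (R m G).transpose) * ((R m G').transpose * R m E') := by
          rw [← Matrix.mul_assoc (R m' G * T')]
      _ = T' * R m G * (R m E * (R m G).transpose) * ((R m G').transpose * R m E') := by rw [h5]
      _ = T' * R m G * (R m E * (R m G).transpose * ((R m G').transpose * R m E')) := by
          rw [Matrix.mul_assoc (T' * R m G)]
      _ = T' * R m G := by rw [h6, Matrix.mul_one]

/-- A map between tensor powers which commutes with the Frobenii commutes with the Hodge cocharacters. -/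
theorem comm_hodge (hk : ∀ b, IsSym (k b)) {f₀ : ℕ} {𝓕 : Set (Frob k)}
    {Γ : Set (Matrix (Ind k) (Ind k) ℂ)} {S : Finset (Ind k → ℕ)} (hS : IsHodgeSystem f₀ 𝓕 Γ S)
    (hR : IsReductive 𝓕 Γ S) (hne : 𝓕.Nonempty)
    (hle : ∀ m i, galoisConiveau 𝓕 m (i + i) i ≤ hodgeConiveau Γ S m (i + i) i)
    {m' m : ℕ} {T : Matrix (Fin m' → Ind k) (Fin m → Ind k) ℂ}
    (hT : ∀ z ∈ 𝓕, R m' z.2 * T = T * R m z.2) {c : ℂ} (hc : c ≠ 0)
    {g : Matrix (Ind k) (Ind k) ℂ} (hg : IsHodgeElt Γ S c g) : R m' g * T = T * R m g := by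
  rw [sum_part T, Matrix.mul_sum, Matrix.sum_mul]
  refine Finset.sum_congr rfl fun i' _ => ?_
  rw [Matrix.mul_sum, Matrix.sum_mul]
  refine Finset.sum_congr rfl fun i _ => ?_
  exact comm_part hk hS hR hne hle (fun z hz => part_comm i' i (hS.blocks z hz) (hT z hz)) hc hg

/-- Maps which commute with `Γ` commute with the closure. -/
theorem comm_closure {Γ : Set (Matrix (Ind k) (Ind k) ℂ)} {m' m : ℕ}
    {T : Matrix (Fin m' → Ind k) (Fin m → Ind k) ℂ} (hT : ∀ g ∈ Γ, R m' g * T = T * R m g)
    {g : Matrix (Ind k) (Ind k) ℂ} (hg : InClosure Γ g) : R m' g * T = T * R m g := by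
  have h1 : ∀ M ∈ Submonoid.closure Γ, R m' M * T = T * R m M := by
    intro M hM
    induction hM using Submonoid.closure_induction with
    | mem x hx => exact hT x hx
    | one => rw [R_one, R_one, Matrix.one_mul, Matrix.mul_one]
    | mul x y _ _ hx hy => rw [R_mul, R_mul, Matrix.mul_assoc, hy, ← Matrix.mul_assoc, hx, Matrix.mul_assoc]
  ext x y
  let F : MvPolynomial (Ind k × Ind k) ℂ :=
    (∑ x' : Fin m' → Ind k, (∏ p, MvPolynomial.X (x p, x' p)) * MvPolynomial.C (T x' y)) -
      ∑ y' : Fin m → Ind k, MvPolynomial.C (T x y') * (∏ p, MvPolynomial.X (y' p, y p))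
  have hF : ∀ M : Matrix (Ind k) (Ind k) ℂ,
      MvPolynomial.eval (fun x => M x.1 x.2) F = (R m' M * T) x y - (T * R m M) x y := by
    intro M
    simp only [F, map_sub, map_sum, map_mul, map_prod, MvPolynomial.eval_C, MvPolynomial.eval_X,
      Matrix.mul_apply, R_apply]
  have h2 := hg F fun M hM => by rw [hF, h1 M hM, sub_self]
  rw [hF] at h2
  exact sub_eq_zero.1 h2

end Pool.Agent.Helper71.C3
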