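import Pool.Agent.Helper71.C3.Words
import Pool.Agent.Helper71.C3.Abs

/-!
# C3: the double commutant theorem
-/

set_option autoImplicit false

namespace Pool.Agent.Helper71.C3

open Polynomial Pool.Agent.Helper48.SP Pool.Agent.Helper48.GC8 Pool.Agent.Helper35.GT Finset

variable {B : Type} [Fintype B] [DecidableEq B] {k : B → Blk}

/-- The monoid generated by the Frobenii acts on the tensor power. -/
noncomputable def monHom (𝓕 : Set (Frob k)) (n : ℕ) :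
    Submonoid.closure (frobs 𝓕) →* Module.End ℂ ((Fin n → Ind k) → ℂ) where
  toFun M := rho univ M.1
  map_one' := rho_one univ
  map_mul' M M' := rho_mul univ M.1 M'.1

/-- The group ring of the monoid generated by the Frobenii. -/
abbrev Alg (𝓕 : Set (Frob k)) : Type := MonoidAlgebra ℂ (Submonoid.closure (frobs 𝓕))

/-- The action of the group ring. -/
noncomputable def act (𝓕 : Set (Frob k)) (n : ℕ) : Alg 𝓕 →ₐ[ℂ] Module.End ℂ ((Fin n → Ind k) → ℂ) :=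
  MonoidAlgebra.lift ℂ _ _ (monHom 𝓕 n)

/-- The tensor power as a module over the group ring. -/
def Vt (_𝓕 : Set (Frob k)) (n : ℕ) : Type := (Fin n → Ind k) → ℂ

noncomputable instance (𝓕 : Set (Frob k)) (n : ℕ) : AddCommGroup (Vt 𝓕 n) :=
  inferInstanceAs (AddCommGroup ((Fin n → Ind k) → ℂ))

noncomputable instance (𝓕 : Set (Frob k)) (n : ℕ) : Module (Alg 𝓕) (Vt 𝓕 n) :=
  Module.compHom ((Fin n → Ind k) → ℂ) (act 𝓕 n).toRingHom

lemma smul_def' (𝓕 : Set (Frob k)) (n : ℕ) (r : Alg 𝓕) (v : Vt 𝓕 n) :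
    r • v = (act 𝓕 n r : Module.End ℂ ((Fin n → Ind k) → ℂ)) v := rfl

lemma of_smul (𝓕 : Set (Frob k)) (n : ℕ) (M : Submonoid.closure (frobs 𝓕)) (v : Vt 𝓕 n) :
    (MonoidAlgebra.of ℂ _ M : Alg 𝓕) • v = (rho univ M.1 : Module.End ℂ ((Fin n → Ind k) → ℂ)) v := by
  rw [smul_def', act, MonoidAlgebra.lift_of]
  rfl

lemma scalar_smul (𝓕 : Set (Frob k)) (n : ℕ) (c : ℂ) (v : Vt 𝓕 n) :
    (algebraMap ℂ (Alg 𝓕) c) • v = (fun x => c * v x : (Fin n → Ind k) → ℂ) := by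
  rw [smul_def', AlgHom.commutes, Module.algebraMap_end_apply]
  rfl

lemma smul_eq_sum (𝓕 : Set (Frob k)) (n : ℕ) (r : Alg 𝓕) (v : (Fin n → Ind k) → ℂ) :
    (act 𝓕 n r : Module.End ℂ ((Fin n → Ind k) → ℂ)) v =
      r.coeff.sum fun M a => a • (rho univ M.1 : Module.End ℂ ((Fin n → Ind k) → ℂ)) v := by
  rw [act, MonoidAlgebra.lift_apply, Finsupp.sum, LinearMap.sum_apply]
  rfl

theorem semisimple_of {𝓕 : Set (Frob k)} {n : ℕ}
    (h : ∀ U : Submodule ℂ ((Fin n → Ind k) → ℂ), (∀ z ∈ 𝓕, ∀ u ∈ U, tensorPower z.2 u ∈ U) →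
      ∃ U' : Submodule ℂ ((Fin n → Ind k) → ℂ), (∀ z ∈ 𝓕, ∀ u ∈ U', tensorPower z.2 u ∈ U') ∧
        IsCompl U U') : IsSemisimpleModule (Alg 𝓕) (Vt 𝓕 n) := by
  rw [isSemisimpleModule_iff]
  refine ⟨fun U => ?_⟩
  let U₁ : Submodule ℂ ((Fin n → Ind k) → ℂ) :=
    { carrier := {v | (v : Vt 𝓕 n) ∈ U}
      add_mem' := fun ha hb => U.add_mem ha hb
      zero_mem' := U.zero_mem
      smul_mem' := fun c v hv => by
        have h1 := U.smul_mem (algebraMap ℂ (Alg 𝓕) c) hv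
        rw [scalar_smul] at h1
        exact h1 }
  obtain ⟨U', hU', hc⟩ := h U₁ (fun z hz u hu => by
    have h1 : (rho univ z.2 : Module.End ℂ ((Fin n → Ind k) → ℂ)) u ∈ U₁ := by
      have h2 := U.smul_mem (MonoidAlgebra.of ℂ _
        (⟨z.2, Submonoid.subset_closure ⟨z, hz, rfl⟩⟩ : Submonoid.closure (frobs 𝓕))) hu
      rw [of_smul] at h2
      exact h2
    rw [tensorPower_eq]
    exact h1)
  let U₂ : Submodule (Alg 𝓕) (Vt 𝓕 n) :=
    { carrier := {v | (v : (Fin n → Ind k) → ℂ) ∈ U'}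
      add_mem' := fun ha hb => U'.add_mem ha hb
      zero_mem' := U'.zero_mem
      smul_mem' := fun r v hv => by
        have h1 : (act 𝓕 n r : Module.End ℂ ((Fin n → Ind k) → ℂ)) v ∈ U' := by
          rw [smul_eq_sum]
          refine U'.sum_mem fun M _ => U'.smul_mem _ ?_
          refine stab_closure (Γ := frobs 𝓕) ?_ M.2 _ hv
          rintro g ⟨z, hz, rfl⟩ u hu
          exact hU' z hz u hu
        exact h1 }
  refine ⟨U₂, ?_⟩
  constructor
  · rw [disjoint_iff, eq_bot_iff]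
    rintro v ⟨h1, h2⟩
    have h3 : ∀ w : (Fin n → Ind k) → ℂ, w ∈ U₁ → w ∈ U' → w = 0 := fun w hw hw' => by
      have h4 : w ∈ U₁ ⊓ U' := ⟨hw, hw'⟩
      rw [hc.inf_eq_bot] at h4
      exact (Submodule.mem_bot ℂ).1 h4
    exact h3 v h1 h2
  · rw [codisjoint_iff, eq_top_iff]
    intro v _
    have h3 : ∀ w : (Fin n → Ind k) → ℂ, w ∈ U₁ ⊔ U' := fun w => by
      rw [hc.sup_eq_top]
      exact Submodule.mem_top
    obtain ⟨a, ha, b, hb, hab⟩ := Submodule.mem_sup.1 (h3 v)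
    exact Submodule.mem_sup.2 ⟨a, ha, b, hb, hab⟩

/-- A homomorphism of the modules as a matrix. -/
theorem exists_matrix {𝓕 : Set (Frob k)} {n n' : ℕ} (T : Vt 𝓕 n →ₗ[Alg 𝓕] Vt 𝓕 n') :
    ∃ T' : Matrix (Fin n' → Ind k) (Fin n → Ind k) ℂ,
      (∀ v : (Fin n → Ind k) → ℂ, (T (v : Vt 𝓕 n) : (Fin n' → Ind k) → ℂ) = T'.mulVec v) ∧
        ∀ z ∈ 𝓕, R n' z.2 * T' = T' * R n z.2 := by
  classical
  let L : ((Fin n → Ind k) → ℂ) →ₗ[ℂ] ((Fin n' → Ind k) → ℂ) :=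
    { toFun := fun v => T (v : Vt 𝓕 n)
      map_add' := fun v w => T.map_add v w
      map_smul' := fun c v => by
        have h1 := T.map_smul (algebraMap ℂ (Alg 𝓕) c) (v : Vt 𝓕 n)
        rw [scalar_smul, scalar_smul] at h1
        exact h1 }
  have hL : ∀ v : (Fin n → Ind k) → ℂ, L v = (LinearMap.toMatrix' L).mulVec v := fun v => by
    rw [LinearMap.toMatrix'_mulVec]
  refine ⟨LinearMap.toMatrix' L, hL, fun z hz => ?_⟩
  have h1 : ∀ v : (Fin n → Ind k) → ℂ,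
      (R n' z.2 * LinearMap.toMatrix' L).mulVec v = (LinearMap.toMatrix' L * R n z.2).mulVec v := by
    intro v
    rw [← Matrix.mulVec_mulVec, ← Matrix.mulVec_mulVec, ← hL, ← hL, ← rho_R, ← rho_R]
    have h2 := T.map_smul (MonoidAlgebra.of ℂ _
      (⟨z.2, Submonoid.subset_closure ⟨z, hz, rfl⟩⟩ : Submonoid.closure (frobs 𝓕))) (v : Vt 𝓕 n)
    rw [of_smul, of_smul] at h2
    exact h2.symm
  ext x y
  have h2 := congrFun (h1 (Pi.single y 1)) x
  rw [Matrix.mulVec_single_one, Matrix.mulVec_single_one] at h2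
  exact h2

/-- The double commutant theorem for the tensor powers up to `D`. -/
theorem exists_comb {𝓕 : Set (Frob k)} (D : ℕ)
    (hss : ∀ (n : ℕ) (U : Submodule ℂ ((Fin n → Ind k) → ℂ)),
      (∀ z ∈ 𝓕, ∀ u ∈ U, tensorPower z.2 u ∈ U) →
      ∃ U' : Submodule ℂ ((Fin n → Ind k) → ℂ), (∀ z ∈ 𝓕, ∀ u ∈ U', tensorPower z.2 u ∈ U') ∧
        IsCompl U U') {g : Matrix (Ind k) (Ind k) ℂ}
    (hcomm : ∀ (m' m : ℕ) (T : Matrix (Fin m' → Ind k) (Fin m → Ind k) ℂ),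
      (∀ z ∈ 𝓕, R m' z.2 * T = T * R m z.2) → R m' g * T = T * R m g) :
    ∃ r : Alg 𝓕, ∀ n ≤ D, ∀ x y : Fin n → Ind k,
      R n g x y = r.coeff.sum fun M a => a * R n M.1 x y := by
  classical
  have : ∀ n : Fin (D + 1), IsSemisimpleModule (Alg 𝓕) (Vt 𝓕 n) := fun n => semisimple_of (hss n)
  obtain ⟨r, hr⟩ := double_comm (A := Alg 𝓕) (ι := Fin (D + 1)) (M := fun n => Vt 𝓕 n)
    (fun n => { toFun := fun v => (rho univ g : Module.End ℂ ((Fin n → Ind k) → ℂ)) v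
                map_zero' := map_zero _
                map_add' := fun v w => map_add _ _ _ }) (fun i j T v => by
      obtain ⟨T', h1, h2⟩ := exists_matrix T
      change T ((rho univ g : Module.End ℂ ((Fin (i : ℕ) → Ind k) → ℂ)) v) =
        (rho univ g : Module.End ℂ ((Fin (j : ℕ) → Ind k) → ℂ)) (T v)
      have h3 := hcomm _ _ T' h2
      have h4 : (T ((rho univ g : Module.End ℂ ((Fin (i : ℕ) → Ind k) → ℂ)) v) :
          (Fin (j : ℕ) → Ind k) → ℂ) = T'.mulVec ((R i g).mulVec v) := by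
        rw [h1, rho_R]
      have h5 : ((rho univ g : Module.End ℂ ((Fin (j : ℕ) → Ind k) → ℂ)) (T v) :
          (Fin (j : ℕ) → Ind k) → ℂ) = (R j g).mulVec (T'.mulVec v) := by
        rw [← h1, rho_R]
      rw [h4, h5, Matrix.mulVec_mulVec, Matrix.mulVec_mulVec, h3])
    (fun n => univ.image fun y : Fin n → Ind k => (Pi.single y (1 : ℂ) : (Fin n → Ind k) → ℂ))
  refine ⟨r, fun n hn x y => ?_⟩
  have h1 := hr ⟨n, by omega⟩ (Pi.single y (1 : ℂ) : (Fin n → Ind k) → ℂ)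
    (Finset.mem_image_of_mem _ (mem_univ y))
  have h2 : (rho univ g : Module.End ℂ ((Fin n → Ind k) → ℂ)) (Pi.single y (1 : ℂ)) =
      (act 𝓕 n r : Module.End ℂ ((Fin n → Ind k) → ℂ)) (Pi.single y (1 : ℂ)) := h1
  rw [smul_eq_sum, rho_R, Matrix.mulVec_single_one] at h2
  have h3 := congrFun h2 x
  rw [Finsupp.sum, Finset.sum_apply] at h3
  rw [Finsupp.sum]
  refine h3.trans (Finset.sum_congr rfl fun M _ => ?_)
  rw [Pi.smul_apply, smul_eq_mul, rho_R, Matrix.mulVec_single_one]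
  rfl

end Pool.Agent.Helper71.C3
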