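import Pool.Agent.Helper71.C3.Defs
import Pool.Agent.Helper35.GT.Part1
import Pool.Agent.Helper48.SP.GenProd

/-!
# C3: stability under the Zariski closure, eigenvectors with a given word
-/

set_option autoImplicit false

namespace Pool.Agent.Helper71.C3

open Polynomial Pool.Agent.Helper48.SP Pool.Agent.Helper48.GC8 Pool.Agent.Helper35.GT

variable {B : Type} [Fintype B] [DecidableEq B] {k : B → Blk} {m : ℕ}

theorem stab_closure {Γ : Set (Matrix (Ind k) (Ind k) ℂ)} {U : Submodule ℂ ((Fin m → Ind k) → ℂ)}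
    (hU : ∀ g ∈ Γ, ∀ u ∈ U, tensorPower g u ∈ U) {g : Matrix (Ind k) (Ind k) ℂ}
    (hg : g ∈ Submonoid.closure Γ) : ∀ u ∈ U, rho Finset.univ g u ∈ U := by
  induction hg using Submonoid.closure_induction with
  | mem x hx => intro u hu; rw [← tensorPower_eq]; exact hU x hx u hu
  | one => intro u hu; rw [rho_one]; exact hu
  | mul x y _ _ hx hy => intro u hu; rw [rho_mul, Module.End.mul_apply]; exact hx _ (hy _ hu)

theorem stab {Γ : Set (Matrix (Ind k) (Ind k) ℂ)} {U : Submodule ℂ ((Fin m → Ind k) → ℂ)}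
    (hU : ∀ g ∈ Γ, ∀ u ∈ U, tensorPower g u ∈ U) {g : Matrix (Ind k) (Ind k) ℂ}
    (hg : InClosure Γ g) {u : (Fin m → Ind k) → ℂ} (hu : u ∈ U) : rho Finset.univ g u ∈ U := by
  classical
  by_contra hcon
  obtain ⟨f, hf, hfU⟩ := Submodule.exists_dual_map_eq_bot_of_notMem hcon inferInstance
  let F : MvPolynomial (Ind k × Ind k) ℂ :=
    ∑ x : Fin m → Ind k, MvPolynomial.C (f (Pi.single x 1)) *
      ∑ y : Fin m → Ind k, (∏ p, MvPolynomial.X (x p, y p)) * MvPolynomial.C (u y)
  have hF : ∀ M : Matrix (Ind k) (Ind k) ℂ,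
      MvPolynomial.eval (fun x => M x.1 x.2) F = f (rho Finset.univ M u) := by
    intro M
    have h1 : rho Finset.univ M u =
        ∑ x : Fin m → Ind k, (rho Finset.univ M u x) • (Pi.single x (1 : ℂ) : Ten (Fin m) (Ind k)) := by
      funext y
      simp [Finset.sum_apply, Pi.single_apply]
    rw [h1, map_sum]
    simp only [F, map_sum, map_mul, map_prod, MvPolynomial.eval_C, MvPolynomial.eval_X, map_smul,
      smul_eq_mul, rho_apply, Finset.mem_univ, if_true]
    exact Finset.sum_congr rfl fun x _ => mul_comm _ _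
  have h1 := hg F (fun M hM => by
    rw [hF]
    have h2 : f (rho Finset.univ M u) ∈ U.map f :=
      Submodule.mem_map_of_mem (stab_closure hU hM u hu)
    rw [hfU] at h2
    exact (Submodule.mem_bot ℂ).1 h2)
  rw [hF] at h1
  exact hf h1

theorem stab_inv {U : Submodule ℂ ((Fin m → Ind k) → ℂ)} {f f' : Module.End ℂ ((Fin m → Ind k) → ℂ)}
    (hf : ∀ u ∈ U, f u ∈ U) (h : f' * f = 1) {u : (Fin m → Ind k) → ℂ} (hu : u ∈ U) : f' u ∈ U := by
  have hinj : Function.Injective (f.restrict hf) := by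
    intro a b hab
    have h1 : f a = f b := congrArg Subtype.val hab
    have h2 : ∀ v, f' (f v) = v := fun v => by
      rw [← Module.End.mul_apply, h, Module.End.one_apply]
    exact Subtype.ext (by rw [← h2 a, h1, h2])
  obtain ⟨v, hv⟩ := (LinearMap.injective_iff_surjective.1 hinj) ⟨u, hu⟩
  have h1 : f v = u := congrArg Subtype.val hv
  rw [← h1, ← Module.End.mul_apply, h, Module.End.one_apply]
  exact v.2

private theorem aeval_mem {U : Submodule ℂ ((Fin m → Ind k) → ℂ)}
    {f : Module.End ℂ ((Fin m → Ind k) → ℂ)} (hf : ∀ u ∈ U, f u ∈ U) (p : ℂ[X])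
    {u : (Fin m → Ind k) → ℂ} (hu : u ∈ U) : aeval f p u ∈ U := by
  induction p using Polynomial.induction_on' with
  | add p q hp hq => rw [map_add, LinearMap.add_apply]; exact U.add_mem hp hq
  | monomial n c =>
    rw [aeval_monomial, Module.End.mul_apply, Module.algebraMap_end_apply]
    refine U.smul_mem c ?_
    clear c
    induction n with
    | zero => rwa [pow_zero, Module.End.one_apply]
    | succ n ih => rw [pow_succ', Module.End.mul_apply]; exact hf _ ih

private theorem aeval_diag (d : Ind k → ℂ) (p : ℂ[X]) (u : (Fin m → Ind k) → ℂ) (x : Fin m → Ind k) :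
    aeval (rho Finset.univ (Matrix.diagonal d) : Module.End ℂ (Ten (Fin m) (Ind k))) p u x =
      p.eval (∏ j, d (x j)) * u x := by
  induction p using Polynomial.induction_on' with
  | add p q hp hq => rw [map_add, LinearMap.add_apply, Pi.add_apply, hp, hq, eval_add, add_mul]
  | monomial n c =>
    rw [aeval_monomial, Module.End.mul_apply, Module.algebraMap_end_apply, Pi.smul_apply,
      smul_eq_mul, eval_monomial, mul_assoc]
    congr 1
    induction n with
    | zero => rw [pow_zero, Module.End.one_apply, pow_zero, one_mul]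
    | succ n ih => rw [pow_succ', Module.End.mul_apply, rho_diag, ih, pow_succ']; ring

/-- The component of the eigenvalue `δ`. -/
theorem component {U : Submodule ℂ ((Fin m → Ind k) → ℂ)} {d : Ind k → ℂ}
    (hU : ∀ u ∈ U, rho Finset.univ (Matrix.diagonal d) u ∈ U) (δ : ℂ) {u : (Fin m → Ind k) → ℂ}
    (hu : u ∈ U) : ∃ v ∈ U, (∀ x, ∏ j, d (x j) = δ → v x = u x) ∧
      ∀ x, ∏ j, d (x j) ≠ δ → v x = 0 := by
  classical
  let T : Finset ℂ := (Finset.univ : Finset (Fin m → Ind k)).image fun x => ∏ j, d (x j)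
  let p : ℂ[X] := ∏ γ ∈ T.erase δ, (C (δ - γ)⁻¹ * (X - C γ))
  refine ⟨aeval (rho Finset.univ (Matrix.diagonal d) : Module.End ℂ (Ten (Fin m) (Ind k))) p u,
    aeval_mem hU p hu, fun x hx => ?_, fun x hx => ?_⟩
  · rw [aeval_diag, hx]
    have h1 : p.eval δ = 1 := by
      simp only [p, eval_prod]
      refine Finset.prod_eq_one fun γ hγ => ?_
      rw [eval_mul, eval_C, eval_sub, eval_X, eval_C]
      exact inv_mul_cancel₀ (sub_ne_zero.2 (Finset.ne_of_mem_erase hγ).symm)
    rw [h1, one_mul]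
  · rw [aeval_diag]
    have h1 : p.eval (∏ j, d (x j)) = 0 := by
      simp only [p, eval_prod]
      refine Finset.prod_eq_zero (i := ∏ j, d (x j)) (Finset.mem_erase.2 ⟨hx, ?_⟩) ?_
      · exact Finset.mem_image_of_mem _ (Finset.mem_univ x)
      · rw [eval_mul, eval_sub, eval_X, eval_C, eval_C, sub_self, mul_zero]
    rw [h1, zero_mul]

private theorem diag_eig (d : Ind k → ℂ) {δ : ℂ} {v : (Fin m → Ind k) → ℂ}
    (h : ∀ x, ∏ j, d (x j) ≠ δ → v x = 0) :
    rho Finset.univ (Matrix.diagonal d) v = δ • v := by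
  funext x
  rw [rho_diag, Pi.smul_apply, smul_eq_mul]
  by_cases hx : ∏ j, d (x j) = δ
  · rw [hx]
  · rw [h x hx, mul_zero, mul_zero]

private theorem unip {R : Module.End ℂ ((Fin m → Ind k) → ℂ)} (hR : IsNilpotent (R - 1)) {γ : ℂ}
    {v : (Fin m → Ind k) → ℂ} (hv : v ≠ 0) (h : R v = γ • v) : γ = 1 := by
  obtain ⟨n, hn⟩ := hR
  have h1 : ∀ n : ℕ, ((R - 1) ^ n) v = (γ - 1) ^ n • v := by
    intro n
    induction n with
    | zero => rw [pow_zero, Module.End.one_apply, pow_zero, one_smul]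
    | succ n ih =>
      have h2 : γ • v - v = (γ - 1) • v := by rw [sub_smul, one_smul]
      rw [pow_succ', Module.End.mul_apply, ih, map_smul, LinearMap.sub_apply, h,
        Module.End.one_apply, h2, smul_smul, pow_succ]
  have h2 := h1 n
  rw [hn, LinearMap.zero_apply] at h2
  have h3 := (smul_eq_zero.1 h2.symm).resolve_right hv
  exact sub_eq_zero.1 (pow_eq_zero_iff (M₀ := ℂ) (n := n) (by rintro rfl; rw [pow_zero] at h3; exact one_ne_zero h3) |>.1 h3)

/-- Every word of a stable subspace gives an eigenvector. -/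
theorem exists_eig {U : Submodule ℂ ((Fin m → Ind k) → ℂ)} {d : Ind k → ℂ}
    {N : Matrix (Ind k) (Ind k) ℂ} (hN : IsNilpotent (N - 1))
    (hc : N * Matrix.diagonal d = Matrix.diagonal d * N)
    (hU : ∀ u ∈ U, rho Finset.univ (Matrix.diagonal d) u ∈ U)
    (hU' : ∀ u ∈ U, rho Finset.univ (Matrix.diagonal d * N) u ∈ U)
    {u : (Fin m → Ind k) → ℂ} (hu : u ∈ U) {y : Fin m → Ind k} (hy : u y ≠ 0) :
    ∃ v ∈ U, v ≠ 0 ∧ rho Finset.univ (Matrix.diagonal d * N) v = (∏ j, d (y j)) • v := by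
  classical
  set δ := ∏ j, d (y j) with hδ
  set T : Module.End ℂ ((Fin m → Ind k) → ℂ) := rho Finset.univ (Matrix.diagonal d) with hT
  set R : Module.End ℂ ((Fin m → Ind k) → ℂ) := rho Finset.univ N with hR
  have hTR : (rho Finset.univ (Matrix.diagonal d * N) : Module.End ℂ ((Fin m → Ind k) → ℂ)) = T * R :=
    rho_mul _ _ _
  have hcomm : R * T = T * R := by
    rw [hT, hR, ← rho_mul, ← rho_mul, hc]
  obtain ⟨v, hvU, hv1, hv2⟩ := component hU δ hu
  have hv0 : v ≠ 0 := fun h => hy (by rw [← hv1 y rfl, h]; rfl)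
  have hvT : T v = δ • v := diag_eig d hv2
  let W : Submodule ℂ ((Fin m → Ind k) → ℂ) := U ⊓ Module.End.eigenspace T δ
  have hW : ∀ w ∈ W, (T * R) w ∈ W := by
    rintro w ⟨hw1, hw2⟩
    refine ⟨by rw [← hTR]; exact hU' w hw1, ?_⟩
    have hw3 : T w = δ • w := Module.End.mem_eigenspace_iff.1 hw2
    refine Module.End.mem_eigenspace_iff.2 ?_
    have h1 : T * (T * R) = (T * R) * T := by rw [mul_assoc, hcomm]
    rw [← Module.End.mul_apply, h1, Module.End.mul_apply, hw3, map_smul]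
  have hnt : Nontrivial W := ⟨⟨⟨v, hvU, Module.End.mem_eigenspace_iff.2 hvT⟩, 0, fun h =>
    hv0 (congrArg Subtype.val h)⟩⟩
  obtain ⟨γ, hγ⟩ := Module.End.exists_eigenvalue ((T * R).restrict hW)
  obtain ⟨w, hw⟩ := hγ.exists_hasEigenvector
  have hw0 : (w : (Fin m → Ind k) → ℂ) ≠ 0 := fun h => hw.2 (Subtype.ext h)
  have hw1 : (T * R) (w : (Fin m → Ind k) → ℂ) = γ • (w : (Fin m → Ind k) → ℂ) :=
    congrArg Subtype.val hw.apply_eq_smul
  have hw2 : T (w : (Fin m → Ind k) → ℂ) = δ • (w : (Fin m → Ind k) → ℂ) :=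
    Module.End.mem_eigenspace_iff.1 w.2.2
  refine ⟨w, w.2.1, hw0, ?_⟩
  rw [hTR, hw1]
  congr 1
  rw [← hcomm, Module.End.mul_apply, hw2, map_smul] at hw1
  by_cases h0 : δ = 0
  · rw [h0, zero_smul] at hw1
    rw [h0]
    exact (smul_eq_zero.1 hw1.symm).resolve_right hw0
  · have h1 : R (w : (Fin m → Ind k) → ℂ) = (γ / δ) • (w : (Fin m → Ind k) → ℂ) := by
      rw [div_eq_inv_mul, mul_smul, ← hw1, smul_smul, inv_mul_cancel₀ h0, one_smul]
    have h2 := unip (rho_unipotent (ι := Fin m) hN) hw0 h1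
    rwa [div_eq_one_iff_eq h0] at h2

/-- The eigenvalue of an eigenvector is the product of the entries over each of its words. -/
theorem eig_word {d : Ind k → ℂ} (hd : ∀ l, d l ≠ 0)
    {N : Matrix (Ind k) (Ind k) ℂ} (hN : IsNilpotent (N - 1))
    (hc : N * Matrix.diagonal d = Matrix.diagonal d * N) {u : (Fin m → Ind k) → ℂ} {β : ℂ}
    (h : rho Finset.univ (Matrix.diagonal d * N) u = β • u) {y : Fin m → Ind k} (hy : u y ≠ 0) :
    ∏ j, d (y j) = β := by
  classical
  set δ := ∏ j, d (y j) with hδ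
  set T : Module.End ℂ ((Fin m → Ind k) → ℂ) := rho Finset.univ (Matrix.diagonal d) with hT
  set R : Module.End ℂ ((Fin m → Ind k) → ℂ) := rho Finset.univ N with hR
  have hTR : (rho Finset.univ (Matrix.diagonal d * N) : Module.End ℂ ((Fin m → Ind k) → ℂ)) = T * R :=
    rho_mul _ _ _
  have hcomm : R * T = T * R := by
    rw [hT, hR, ← rho_mul, ← rho_mul, hc]
  let E : Submodule ℂ ((Fin m → Ind k) → ℂ) := Module.End.eigenspace (T * R) β
  have hE : ∀ w ∈ E, T w ∈ E := by
    intro w hw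
    have hw1 : (T * R) w = β • w := Module.End.mem_eigenspace_iff.1 hw
    refine Module.End.mem_eigenspace_iff.2 ?_
    have h1 : (T * R) * T = T * (T * R) := by rw [mul_assoc, hcomm]
    rw [← Module.End.mul_apply, h1, Module.End.mul_apply, hw1, map_smul]
  have huE : u ∈ E := Module.End.mem_eigenspace_iff.2 (by rw [← hTR]; exact h)
  obtain ⟨v, hvE, hv1, hv2⟩ := component hE δ huE
  have hv0 : v ≠ 0 := fun h => hy (by rw [← hv1 y rfl, h]; rfl)
  have hvT : T v = δ • v := diag_eig d hv2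
  have hvR : (T * R) v = β • v := Module.End.mem_eigenspace_iff.1 hvE
  have h0 : δ ≠ 0 := Finset.prod_ne_zero_iff.2 fun j _ => hd _
  rw [← hcomm, Module.End.mul_apply, hvT, map_smul] at hvR
  have h1 : R v = (β / δ) • v := by
    rw [div_eq_inv_mul, mul_smul, ← hvR, smul_smul, inv_mul_cancel₀ h0, one_smul]
  have h2 := unip (rho_unipotent (ι := Fin m) hN) hv0 h1
  rw [div_eq_one_iff_eq h0] at h2
  exact h2.symm

end Pool.Agent.Helper71.C3
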