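import Pool.Agent.Helper71.C3.Words

/-!
# C3: polynomials are linear combinations of entries of the tensor powers
-/

set_option autoImplicit false

namespace Pool.Agent.Helper71.C3

open Polynomial Pool.Agent.Helper48.SP Pool.Agent.Helper48.GC8 Pool.Agent.Helper35.GT Finset

variable {B : Type} [Fintype B] [DecidableEq B] {k : B → Blk}

/-- The span of the entries of the tensor powers up to `D`. -/
def Ent (k : B → Blk) (D : ℕ) : Submodule ℂ (Matrix (Ind k) (Ind k) ℂ → ℂ) :=
  Submodule.span ℂ {φ | ∃ n ≤ D, ∃ x y : Fin n → Ind k, φ = fun M => R n M x y}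

theorem Ent_mono {D D' : ℕ} (h : D ≤ D') : Ent k D ≤ Ent k D' :=
  Submodule.span_mono fun _ ⟨n, hn, x, y, he⟩ => ⟨n, hn.trans h, x, y, he⟩

theorem Ent_mul {D : ℕ} (a b : Ind k) {φ : Matrix (Ind k) (Ind k) ℂ → ℂ} (hφ : φ ∈ Ent k D) :
    (fun M => φ M * M a b) ∈ Ent k (D + 1) := by
  induction hφ using Submodule.span_induction with
  | mem φ h =>
    obtain ⟨n, hn, x, y, rfl⟩ := h
    refine Submodule.subset_span ⟨n + 1, by omega, Fin.snoc x a, Fin.snoc y b, ?_⟩
    funext M
    change R n M x y * M a b = R (n + 1) M (Fin.snoc x a) (Fin.snoc y b)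
    rw [R_apply, R_apply, Fin.prod_univ_castSucc]
    simp [Fin.snoc_castSucc, Fin.snoc_last]
  | zero =>
    have : (fun M : Matrix (Ind k) (Ind k) ℂ => (0 : Matrix (Ind k) (Ind k) ℂ → ℂ) M * M a b) = 0 := by
      funext M
      simp
    rw [this]
    exact Submodule.zero_mem _
  | add φ ψ _ _ h1 h2 =>
    have : (fun M => (φ + ψ) M * M a b) = (fun M => φ M * M a b) + fun M => ψ M * M a b := by
      funext M
      simp [add_mul]
    rw [this]
    exact Submodule.add_mem _ h1 h2
  | smul c φ _ h1 =>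
    have : (fun M => (c • φ) M * M a b) = c • fun M => φ M * M a b := by
      funext M
      simp [mul_assoc]
    rw [this]
    exact Submodule.smul_mem _ _ h1

theorem exists_Ent (p : MvPolynomial (Ind k × Ind k) ℂ) :
    ∃ D, (fun M : Matrix (Ind k) (Ind k) ℂ =>
      MvPolynomial.eval (fun x : Ind k × Ind k => M x.1 x.2) p) ∈ Ent k D := by
  induction p using MvPolynomial.induction_on with
  | C a =>
    refine ⟨0, ?_⟩
    have h1 : (fun M : Matrix (Ind k) (Ind k) ℂ => MvPolynomial.eval (fun x : Ind k × Ind k => M x.1 x.2)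
        (MvPolynomial.C a)) = a • fun M => R 0 M Fin.elim0 Fin.elim0 := by
      funext M
      simp [R_apply]
    rw [h1]
    exact Submodule.smul_mem _ _ (Submodule.subset_span ⟨0, le_rfl, _, _, rfl⟩)
  | add p q hp hq =>
    obtain ⟨D, hD⟩ := hp
    obtain ⟨D', hD'⟩ := hq
    refine ⟨max D D', ?_⟩
    have h1 := Submodule.add_mem _ (Ent_mono (le_max_left D D') hD) (Ent_mono (le_max_right D D') hD')
    have h2 : (fun M : Matrix (Ind k) (Ind k) ℂ =>
        MvPolynomial.eval (fun x : Ind k × Ind k => M x.1 x.2) (p + q)) =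
        (fun M => MvPolynomial.eval (fun x : Ind k × Ind k => M x.1 x.2) p) +
          fun M => MvPolynomial.eval (fun x : Ind k × Ind k => M x.1 x.2) q := by
      funext M
      simp
    rw [h2]
    exact h1
  | mul_X p e hp =>
    obtain ⟨D, hD⟩ := hp
    refine ⟨D + 1, ?_⟩
    have h1 := Ent_mul e.1 e.2 hD
    have h2 : (fun M : Matrix (Ind k) (Ind k) ℂ =>
        MvPolynomial.eval (fun x : Ind k × Ind k => M x.1 x.2) (p * MvPolynomial.X e)) =
        fun M => MvPolynomial.eval (fun x : Ind k × Ind k => M x.1 x.2) p * M e.1 e.2 := by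
      funext M
      simp
    rw [h2]
    exact h1

/-- If the tensor powers of `g` are linear combinations of those of elements of a set on which a
polynomial vanishes, it vanishes at `g`. -/
theorem eval_eq_zero {Γ : Set (Matrix (Ind k) (Ind k) ℂ)} {g : Matrix (Ind k) (Ind k) ℂ}
    (h : ∀ D : ℕ, ∃ c : Submonoid.closure Γ →₀ ℂ, ∀ n ≤ D, ∀ x y : Fin n → Ind k,
      R n g x y = c.sum fun M a => a * R n M.1 x y) : InClosure Γ g := by
  intro f hf
  obtain ⟨D, hD⟩ := exists_Ent f
  obtain ⟨c, hc⟩ := h D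
  have h1 : ∀ φ ∈ Ent k D, φ g = c.sum fun M a => a * φ M.1 := by
    intro φ hφ
    induction hφ using Submodule.span_induction with
    | mem φ h =>
      obtain ⟨n, hn, x, y, rfl⟩ := h
      exact hc n hn x y
    | zero => simp
    | add φ ψ _ _ h1 h2 =>
      rw [Pi.add_apply, h1, h2, ← Finsupp.sum_add]
      exact Finsupp.sum_congr fun M _ => by rw [Pi.add_apply, mul_add]
    | smul a φ _ h1 =>
      rw [Pi.smul_apply, h1, smul_eq_mul, Finsupp.mul_sum]
      exact Finsupp.sum_congr fun M _ => by rw [Pi.smul_apply, smul_eq_mul]; ring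
  have h2 : MvPolynomial.eval (fun x : Ind k × Ind k => g x.1 x.2) f = c.sum fun M a => a *
      MvPolynomial.eval (fun x : Ind k × Ind k => M.1 x.1 x.2) f := h1 _ hD
  rw [h2]
  exact Finset.sum_eq_zero fun M _ => by
    change c M * MvPolynomial.eval _ f = 0
    rw [hf M.1 M.2, mul_zero]

end Pool.Agent.Helper71.C3
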