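import Pool.Agent.Helper71.C3.Main
import Pool.Agent.Helper71.C3.Comm
import Pool.Agent.Helper71.C3.Dens
import Pool.Agent.Helper71.C3.Poly

/-!
# C3: the generalized Tate conjecture for all powers is equivalent to the generalized Hodge conjecture, the
Mumford-Tate conjecture and an ordinary place
-/

set_option autoImplicit false

namespace Pool.Agent.Helper71.C3

open Polynomial Pool.Agent.Helper48.SP Pool.Agent.Helper48.GC8 Pool.Agent.Helper35.GT Finset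

variable {B : Type} [Fintype B] [DecidableEq B] {k : B → Blk}

/-- Generalized Tate implies the Mumford-Tate conjecture. -/
theorem mumfordTate_of (hk : ∀ b, IsSym (k b)) {f₀ : ℕ} {𝓕 : Set (Frob k)}
    {Γ : Set (Matrix (Ind k) (Ind k) ℂ)} {S : Finset (Ind k → ℕ)} (hS : IsHodgeSystem f₀ 𝓕 Γ S)
    (hR : IsReductive 𝓕 Γ S) (hne : 𝓕.Nonempty)
    (hle : ∀ m i, galoisConiveau 𝓕 m (i + i) i ≤ hodgeConiveau Γ S m (i + i) i) :
    ∀ g ∈ Γ, InClosure (frobs 𝓕) g := by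
  intro g hg
  refine eval_eq_zero fun D => ?_
  obtain ⟨r, hr⟩ := exists_comb D hR.semisimple (g := g) fun m' m T hT =>
    comm_closure (fun g' hg' => by
      obtain ⟨c, hc, hg'⟩ := hg'
      exact comm_hodge hk hS hR hne hle hT hc hg') (hR.generated g hg)
  exact ⟨r.coeff, hr⟩

/-- **Generalized Tate = generalized Hodge + Mumford-Tate + an ordinary place.** -/
theorem main (hk : ∀ b, IsSym (k b)) {f₀ : ℕ} {𝓕 : Set (Frob k)}
    {Γ : Set (Matrix (Ind k) (Ind k) ℂ)} {S : Finset (Ind k → ℕ)} (hS : IsHodgeSystem f₀ 𝓕 Γ S)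
    (hR : IsReductive 𝓕 Γ S) (N : ∀ m : ℕ, ℕ → ℕ → Submodule ℂ ((Fin m → Ind k) → ℂ))
    (hN : ∀ m i ν, N m i ν ≤ hodgeConiveau Γ S m i ν) :
    (∀ m i ν, N m i ν = galoisConiveau 𝓕 m i ν) ↔
      (∀ m i ν, N m i ν = hodgeConiveau Γ S m i ν) ∧ (∀ g ∈ Γ, InClosure (frobs 𝓕) g) ∧
        ∃ z ∈ 𝓕, IsOrdinary z := by
  constructor
  · intro h
    obtain ⟨h1, z, hz, ho⟩ := tate_imp hk hS N hN h
    refine ⟨h1, mumfordTate_of hk hS hR ⟨z, hz⟩ (fun m i => ?_), z, hz, ho⟩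
    rw [← h]
    exact hN _ _ _
  · rintro ⟨h1, h2, h3⟩
    exact tate_of hk hS h2 N h1 h3

end Pool.Agent.Helper71.C3
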