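import Pool.Agent.Helper71.C3.Eig
import Pool.Agent.Helper35.GT.Tri

/-!
# C3: matrices on words, the tensor of a matrix
-/

set_option autoImplicit false

namespace Pool.Agent.Helper71.C3

open Polynomial Pool.Agent.Helper48.SP Pool.Agent.Helper48.GC8 Pool.Agent.Helper35.GT Finset

variable {B : Type} [Fintype B] [DecidableEq B] {k : B → Blk}

/-- The matrix of `g` on the words of length `m`. -/
noncomputable def R (m : ℕ) (g : Matrix (Ind k) (Ind k) ℂ) :
    Matrix (Fin m → Ind k) (Fin m → Ind k) ℂ :=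
  Matrix.of fun x y => ∏ p, g (x p) (y p)

lemma R_apply (m : ℕ) (g : Matrix (Ind k) (Ind k) ℂ) (x y : Fin m → Ind k) :
    R m g x y = ∏ p, g (x p) (y p) := rfl

lemma R_mul (m : ℕ) (g h : Matrix (Ind k) (Ind k) ℂ) : R m (g * h) = R m g * R m h := by
  ext x y
  simp only [R_apply, Matrix.mul_apply]
  rw [Finset.prod_univ_sum]
  simp only [Fintype.piFinset_univ, Finset.prod_mul_distrib]

lemma R_one (m : ℕ) : R m (1 : Matrix (Ind k) (Ind k) ℂ) = 1 := by
  ext x y
  rw [R_apply, Matrix.one_apply]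
  by_cases h : x = y
  · subst h
    simp
  · rw [if_neg h]
    obtain ⟨p, hp⟩ := Function.ne_iff.1 h
    exact Finset.prod_eq_zero (mem_univ p) (Matrix.one_apply_ne hp)

lemma R_transpose (m : ℕ) (g : Matrix (Ind k) (Ind k) ℂ) : R m g.transpose = (R m g).transpose := rfl

lemma tensorPower_R {m : ℕ} (g : Matrix (Ind k) (Ind k) ℂ) (u : (Fin m → Ind k) → ℂ) :
    tensorPower g u = (R m g).mulVec u := rfl

lemma rho_R {m : ℕ} (g : Matrix (Ind k) (Ind k) ℂ) (u : (Fin m → Ind k) → ℂ) :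
    rho univ g u = (R m g).mulVec u := by
  rw [← tensorPower_R, tensorPower_eq]

/-- The degree of a word. -/
def dg {m : ℕ} (x : Fin m → Ind k) : ℕ := ∑ p, (k (x p).1).wt

lemma dg_of_R {m : ℕ} {g : Matrix (Ind k) (Ind k) ℂ} (hg : ∀ l r : Ind k, l.1 ≠ r.1 → g l r = 0)
    {x y : Fin m → Ind k} (h : R m g x y ≠ 0) : dg x = dg y := by
  rw [R_apply] at h
  refine Finset.sum_congr rfl fun p _ => ?_
  have h1 : g (x p) (y p) ≠ 0 := Finset.prod_ne_zero_iff.1 h p (mem_univ p)
  have h2 : (x p).1 = (y p).1 := by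
    by_contra h3
    exact h1 (hg _ _ h3)
  rw [h2]

/-- The tensor of a matrix on words. -/
def ten {m' m : ℕ} (P : Matrix (Fin m' → Ind k) (Fin m → Ind k) ℂ) : (Fin (m' + m) → Ind k) → ℂ :=
  fun w => P (fun i => w (Fin.castAdd m i)) (fun i => w (Fin.natAdd m' i))

lemma ten_append {m' m : ℕ} (P : Matrix (Fin m' → Ind k) (Fin m → Ind k) ℂ) (x : Fin m' → Ind k)
    (y : Fin m → Ind k) : ten P (Fin.append x y) = P x y := by
  simp [ten]

lemma ten_inj {m' m : ℕ} {P P' : Matrix (Fin m' → Ind k) (Fin m → Ind k) ℂ} (h : ten P = ten P') :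
    P = P' := by
  ext x y
  rw [← ten_append P, ← ten_append P', h]

lemma ten_smul {m' m : ℕ} (c : ℂ) (P : Matrix (Fin m' → Ind k) (Fin m → Ind k) ℂ) :
    ten (c • P) = c • ten P := rfl

lemma dg_append {m' m : ℕ} (w : Fin (m' + m) → Ind k) :
    dg w = dg (fun i => w (Fin.castAdd m i)) + dg (fun i => w (Fin.natAdd m' i)) := by
  unfold dg
  rw [Fin.sum_univ_add]

lemma tensorPower_ten {m' m : ℕ} (g : Matrix (Ind k) (Ind k) ℂ)
    (P : Matrix (Fin m' → Ind k) (Fin m → Ind k) ℂ) :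
    tensorPower g (ten P) = ten (R m' g * P * (R m g).transpose) := by
  funext w
  unfold tensorPower
  rw [← (Fin.appendEquiv m' m).sum_comp, Fintype.sum_prod_type, Finset.sum_comm]
  simp only [ten, Matrix.mul_apply, Matrix.transpose_apply, R_apply]
  refine Finset.sum_congr rfl fun y' _ => ?_
  rw [Finset.sum_mul]
  refine Finset.sum_congr rfl fun x' _ => ?_
  simp only [Fin.prod_univ_add, Fin.appendEquiv_apply, Fin.append_left, Fin.append_right]
  ring

/-- A form with multiplier `c ^ wt`. -/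
lemma R_form (m : ℕ) {g E : Matrix (Ind k) (Ind k) ℂ} {c : ℂ}
    (h : ∀ l r, (g * E * g.transpose) l r = c ^ (k l.1).wt * E l r) (x y : Fin m → Ind k) :
    (R m g * R m E * (R m g).transpose) x y = c ^ dg x * R m E x y := by
  rw [← R_transpose, ← R_mul, ← R_mul, R_apply, R_apply]
  simp only [h]
  rw [Finset.prod_mul_distrib, Finset.prod_pow_eq_pow_sum]
  rfl

/-- The absolute value of an eigenvalue of a Frobenius in degree `j`. -/
theorem norm_eig {f₀ : ℕ} {𝓕 : Set (Frob k)} (hS : IsSystem f₀ 𝓕) {z : Frob k} (hz : z ∈ 𝓕)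
    {n j : ℕ} {u : (Fin n → Ind k) → ℂ} (hu : ∀ y, u y ≠ 0 → dg y = j) (hu0 : u ≠ 0) {β : ℂ}
    (hβ : tensorPower z.2 u = β • u) : ‖β‖ ^ 2 = (z.1 : ℝ) ^ j := by
  classical
  obtain ⟨P, P', T, ord, h1, h2, h3, h4, h5, h6⟩ :=
    tri (Sigma.fst : Ind k → B) z.2 (hS.blocks z hz)
  have hPP' : P * P' = 1 := mul_eq_one_comm.1 h1
  have hT' : P' * z.2 = T * P' := by
    calc P' * z.2 = P' * z.2 * (P * P') := by rw [hPP', Matrix.mul_one]
      _ = P' * (z.2 * P) * P' := by simp only [Matrix.mul_assoc]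
      _ = P' * P * T * P' := by rw [h2]; simp only [Matrix.mul_assoc]
      _ = T * P' := by rw [h1, Matrix.one_mul]
  set w := rho (Finset.univ : Finset (Fin n)) P' u with hw
  have hwd : ∀ y, w y ≠ 0 → dg y = j := by
    intro y hy
    rw [hw, rho_univ_apply] at hy
    obtain ⟨x, -, hx⟩ := Finset.exists_ne_zero_of_sum_ne_zero hy
    rw [← hu x (right_ne_zero_of_mul hx)]
    exact dg_of_R h4 (left_ne_zero_of_mul hx)
  have hw0 : w ≠ 0 := by
    intro h
    have h7 : rho (Finset.univ : Finset (Fin n)) P w = u := by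
      rw [hw, ← Module.End.mul_apply, ← rho_mul, hPP', rho_one, Module.End.one_apply]
    rw [h, map_zero] at h7
    exact hu0 h7.symm
  have hwβ : rho Finset.univ T w = β • w := by
    rw [tensorPower_eq] at hβ
    rw [hw, ← Module.End.mul_apply, ← rho_mul, ← hT', rho_mul, Module.End.mul_apply, hβ, map_smul]
  obtain ⟨y₁, hy₁⟩ : ∃ y, w y ≠ 0 := by
    by_contra hcon
    push Not at hcon
    exact hw0 (funext hcon)
  obtain ⟨y, hy, hmax⟩ := Finset.exists_max_image (univ.filter fun y => w y ≠ 0)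
    (fun y => ∑ p, ord (y p)) ⟨y₁, Finset.mem_filter.2 ⟨mem_univ _, hy₁⟩⟩
  have hy0 : w y ≠ 0 := (Finset.mem_filter.1 hy).2
  have hβy : β = ∏ p, T (y p) (y p) := by
    have h7 := congrFun hwβ y
    rw [rho_univ_apply, Pi.smul_apply, smul_eq_mul, Finset.sum_eq_single y] at h7
    · exact (mul_right_cancel₀ hy0 h7).symm
    · intro x _ hxy
      by_contra hne
      have h8 : w x ≠ 0 := right_ne_zero_of_mul hne
      have h9 : ∀ p, T (y p) (x p) ≠ 0 := fun p =>
        Finset.prod_ne_zero_iff.1 (left_ne_zero_of_mul hne) p (mem_univ p)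
      have h10 : ∀ p, y p = x p ∨ ord (y p) < ord (x p) := fun p => (h5 _ _ (h9 p)).2
      obtain ⟨p₀, hp₀⟩ : ∃ p, x p ≠ y p := by
        by_contra hcon
        push Not at hcon
        exact hxy (funext hcon)
      have h11 : ∑ p, ord (y p) < ∑ p, ord (x p) := by
        refine Finset.sum_lt_sum (fun p _ => ?_) ⟨p₀, mem_univ _, ?_⟩
        · rcases h10 p with h | h
          · rw [h]
          · exact h.le
        · exact (h10 p₀).resolve_left fun h => hp₀ h.symm
      exact absurd (hmax x (Finset.mem_filter.2 ⟨mem_univ _, h8⟩)) (not_le.2 h11)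
    · intro h; exact absurd (mem_univ y) h
  rw [hβy, norm_prod, ← Finset.prod_pow, ← hwd y hy0, dg, ← Finset.prod_pow_eq_pow_sum]
  refine Finset.prod_congr rfl fun p _ => ?_
  refine hS.pure z hz (y p).1 (T (y p) (y p)) ?_
  rw [blockPoly_eq, h6, mem_roots (Finset.prod_ne_zero_iff.2 fun y _ => X_sub_C_ne_zero _), IsRoot,
    eval_prod]
  exact Finset.prod_eq_zero (mem_univ ⟨y p, rfl⟩) (by simp)

end Pool.Agent.Helper71.C3
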